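import Mathlib

open scoped TensorProduct IntermediateField

namespace Pool.Agent.H301R3

theorem isDomain_fraction_tensor {K A L : Type} [Field K] [CommRing A] [IsDomain A] [Algebra K A]
    [Field L] [Algebra K L] [IsDomain (A ⊗[K] L)] : IsDomain (FractionRing A ⊗[K] L) := by
  letI : Algebra (A ⊗[K] L) (FractionRing A ⊗[K] L) :=
    (Algebra.TensorProduct.map (IsScalarTower.toAlgHom K A (FractionRing A))
      (AlgHom.id K L)).toRingHom.toAlgebra
  haveI : IsScalarTower A (A ⊗[K] L) (FractionRing A ⊗[K] L) := by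
    refine IsScalarTower.of_algebraMap_eq fun a => ?_
    change _ = (Algebra.TensorProduct.map (IsScalarTower.toAlgHom K A (FractionRing A))
      (AlgHom.id K L)) (a ⊗ₜ 1)
    rw [Algebra.TensorProduct.map_tmul]
    simp only [Algebra.algebraMap_eq_smul_one, Algebra.TensorProduct.one_def, TensorProduct.smul_tmul', IsScalarTower.coe_toAlgHom', map_one]
  have hloc : IsLocalization (Algebra.algebraMapSubmonoid (A ⊗[K] L) (nonZeroDivisors A))
      (FractionRing A ⊗[K] L) := by
    refine IsLocalization.tensorProduct_tensorProduct K L (nonZeroDivisors A) (FractionRing A) ?_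
    ext l
    change (Algebra.TensorProduct.map (IsScalarTower.toAlgHom K A (FractionRing A))
      (AlgHom.id K L)) (1 ⊗ₜ l) = 1 ⊗ₜ l
    rw [Algebra.TensorProduct.map_tmul]
    simp
  have hinj : Function.Injective (algebraMap A (A ⊗[K] L)) :=
    Algebra.TensorProduct.includeLeft_injective (R := K) (S := K) (A := A) (B := L)
      (algebraMap K L).injective
  have hle : Algebra.algebraMapSubmonoid (A ⊗[K] L) (nonZeroDivisors A) ≤
      nonZeroDivisors (A ⊗[K] L) := by
    rintro _ ⟨a, ha, rfl⟩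
    rw [mem_nonZeroDivisors_iff_ne_zero]
    intro h0
    have ha' : a ≠ 0 := nonZeroDivisors.ne_zero ha
    exact ha' (hinj (by rw [map_zero]; exact h0))
  exact IsLocalization.isDomain_of_le_nonZeroDivisors (FractionRing A ⊗[K] L) hle

theorem mem_bot_of_isAlgebraic {K A : Type} [Field K] [CommRing A] [IsDomain A] [Algebra K A]
    (h : ∀ (L : Type) [Field L] [Algebra K L], IsDomain (A ⊗[K] L)) (x : FractionRing A)
    (hx : IsAlgebraic K x) : x ∈ (⊥ : IntermediateField K (FractionRing A)) := by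
  have hfin : FiniteDimensional K K⟮x⟯ :=
    IntermediateField.adjoin.finiteDimensional hx.isIntegral
  have hdom : IsDomain (A ⊗[K] K⟮x⟯) := h K⟮x⟯
  have hdomB : IsDomain (FractionRing A ⊗[K] K⟮x⟯) := isDomain_fraction_tensor
  have hinj2 : Function.Injective (Algebra.TensorProduct.map (K⟮x⟯.val) (AlgHom.id K K⟮x⟯) :
      K⟮x⟯ ⊗[K] K⟮x⟯ →ₐ[K] FractionRing A ⊗[K] K⟮x⟯) :=
    Module.Flat.rTensor_preserves_injective_linearMap (M := K⟮x⟯) K⟮x⟯.val.toLinearMap
      K⟮x⟯.val.injective
  have hdomL : IsDomain (K⟮x⟯ ⊗[K] K⟮x⟯) := hinj2.isDomain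
    (Algebra.TensorProduct.map (K⟮x⟯.val) (AlgHom.id K K⟮x⟯) :
      K⟮x⟯ ⊗[K] K⟮x⟯ →ₐ[K] FractionRing A ⊗[K] K⟮x⟯).toRingHom
  have hfield : IsField (K⟮x⟯ ⊗[K] K⟮x⟯) := isField_of_isIntegral_of_isField'
    (Field.toIsField K)
  have hmul : Function.Injective (Algebra.TensorProduct.lmul' K (S := K⟮x⟯)) := by
    letI := hfield.toField
    exact (Algebra.TensorProduct.lmul' K (S := K⟮x⟯)).toRingHom.injective
  have hle : Module.finrank K (K⟮x⟯ ⊗[K] K⟮x⟯) ≤ Module.finrank K K⟮x⟯ :=
    LinearMap.finrank_le_finrank_of_injective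
      (f := (Algebra.TensorProduct.lmul' K (S := K⟮x⟯)).toLinearMap) hmul
  rw [Module.finrank_tensorProduct] at hle
  have hpos : 0 < Module.finrank K K⟮x⟯ := Module.finrank_pos
  have h1 : Module.finrank K K⟮x⟯ = 1 := by
    have : Module.finrank K K⟮x⟯ ≤ 1 := by
      by_contra hcon
      push Not at hcon
      nlinarith
    omega
  have h2 : K⟮x⟯ = ⊥ := IntermediateField.finrank_eq_one_iff.1 h1
  have h3 : x ∈ K⟮x⟯ := IntermediateField.mem_adjoin_simple_self K x
  rwa [h2] at h3

end Pool.Agent.H301R3
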