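import Mathlib

open scoped Classical

namespace Pool.Agent.H301R3

/-- finite systems of polynomial equations over the complex numbers -/
abbrev Task := Σ n : ℕ, Finset (MvPolynomial (Fin n) ℂ)

/-- the system has coefficients in `F` -/
def Over (t : Task) (F : IntermediateField ℚ ℂ) : Prop :=
  ∀ f ∈ t.2, ∀ m, MvPolynomial.coeff m f ∈ F

/-- the system has a common zero with coordinates in `F` -/
def SolvedIn (t : Task) (F : IntermediateField ℚ ℂ) : Prop :=
  ∃ v : Fin t.1 → ℂ, (∀ i, v i ∈ F) ∧ ∀ f ∈ t.2, MvPolynomial.eval v f = 0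

theorem SolvedIn.mono {t : Task} {F F' : IntermediateField ℚ ℂ} (h : F ≤ F')
    (hs : SolvedIn t F) : SolvedIn t F' := by
  obtain ⟨v, hv, hz⟩ := hs
  exact ⟨v, fun i => h (hv i), hz⟩

/-- countable subfields of the complex numbers in which the rational numbers are
algebraically closed -/
structure Good (F : IntermediateField ℚ ℂ) : Prop where
  countable : (F : Set ℂ).Countable
  alg : ∀ x ∈ F, IsAlgebraic ℚ x → x ∈ (⊥ : IntermediateField ℚ ℂ)

theorem good_bot : Good ⊥ := by
  refine ⟨?_, fun x hx _ => hx⟩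
  have : ((⊥ : IntermediateField ℚ ℂ) : Set ℂ) = Set.range (algebraMap ℚ ℂ) :=
    IntermediateField.coe_bot
  rw [this]
  exact Set.countable_range _

theorem good_iSup (F : ℕ → IntermediateField ℚ ℂ) (hmono : Monotone F) (h : ∀ n, Good (F n)) :
    Good (⨆ n, F n) := by
  have hc : ((⨆ n, F n : IntermediateField ℚ ℂ) : Set ℂ) = ⋃ n, (F n : Set ℂ) :=
    IntermediateField.coe_iSup_of_directed hmono.directed_le
  refine ⟨?_, ?_⟩
  · rw [hc]
    exact Set.countable_iUnion fun n => (h n).countable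
  · intro x hx hxa
    have hx' : x ∈ ((⨆ n, F n : IntermediateField ℚ ℂ) : Set ℂ) := hx
    rw [hc, Set.mem_iUnion] at hx'
    obtain ⟨n, hn⟩ := hx'
    exact (h n).alg x hn hxa

theorem countable_over {F : IntermediateField ℚ ℂ} (hF : (F : Set ℂ).Countable) :
    {t : Task | Over t F}.Countable := by
  have hFc : Countable F := hF.to_subtype
  let Φ : (Σ n : ℕ, Finset (MvPolynomial (Fin n) F)) → Task := fun s =>
    ⟨s.1, s.2.image (MvPolynomial.map (algebraMap F ℂ))⟩
  have hcnt : ∀ n : ℕ, Countable (MvPolynomial (Fin n) F) := by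
    intro n
    rw [← Cardinal.mk_le_aleph0_iff]
    refine (MvPolynomial.cardinalMk_le_max (σ := Fin n) (R := F)).trans ?_
    have h1 : Cardinal.mk F ≤ Cardinal.aleph0 := Cardinal.mk_le_aleph0
    have h2 : Cardinal.mk (Fin n) ≤ Cardinal.aleph0 := Cardinal.mk_le_aleph0
    exact max_le (max_le h1 h2) le_rfl
  refine (Set.countable_range Φ).mono ?_
  rintro ⟨n, S⟩ hS
  have hex : ∀ f ∈ S, ∃ g : MvPolynomial (Fin n) F, MvPolynomial.map (algebraMap F ℂ) g = f := by
    intro f hf
    have : f ∈ Set.range (MvPolynomial.map (σ := Fin n) (algebraMap F ℂ)) := by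
      rw [MvPolynomial.mem_range_map_iff_coeffs_subset]
      intro c hc
      rw [Finset.mem_coe, MvPolynomial.mem_coeffs_iff] at hc
      obtain ⟨m, _, rfl⟩ := hc
      exact ⟨⟨_, hS f hf m⟩, rfl⟩
    exact this
  choose! g hg using hex
  refine ⟨⟨n, S.image g⟩, ?_⟩
  simp only [Φ]
  congr 1
  rw [Finset.image_image]
  ext f
  simp only [Finset.mem_image, Function.comp]
  constructor
  · rintro ⟨a, ha, rfl⟩
    rw [hg a ha]; exact ha
  · intro hf
    exact ⟨f, hf, hg f hf⟩

/-- one step -/
noncomputable def stepOne (t : Task) (F : IntermediateField ℚ ℂ) : IntermediateField ℚ ℂ :=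
  if h : ∃ F', F ≤ F' ∧ Good F' ∧ SolvedIn t F' then h.choose else F

theorem le_stepOne (t : Task) (F : IntermediateField ℚ ℂ) : F ≤ stepOne t F := by
  unfold stepOne
  split_ifs with h
  · exact h.choose_spec.1
  · exact le_rfl

theorem good_stepOne (t : Task) {F : IntermediateField ℚ ℂ} (hF : Good F) :
    Good (stepOne t F) := by
  unfold stepOne
  split_ifs with h
  · exact h.choose_spec.2.1
  · exact hF

theorem solved_stepOne (t : Task) (F : IntermediateField ℚ ℂ)
    (h : ∃ F', F ≤ F' ∧ Good F' ∧ SolvedIn t F') : SolvedIn t (stepOne t F) := by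
  unfold stepOne
  rw [dif_pos h]
  exact h.choose_spec.2.2

/-- the chain treating the tasks `e 0, e 1, ...` in turn -/
noncomputable def chain (e : ℕ → Task) (F : IntermediateField ℚ ℂ) :
    ℕ → IntermediateField ℚ ℂ
  | 0 => F
  | k + 1 => stepOne (e k) (chain e F k)

theorem chain_mono (e : ℕ → Task) (F : IntermediateField ℚ ℂ) : Monotone (chain e F) :=
  monotone_nat_of_le_succ fun k => le_stepOne (e k) (chain e F k)

theorem chain_good (e : ℕ → Task) {F : IntermediateField ℚ ℂ} (hF : Good F) (k : ℕ) :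
    Good (chain e F k) := by
  induction k with
  | zero => exact hF
  | succ k ih => exact good_stepOne _ ih

theorem exists_all (F : IntermediateField ℚ ℂ) (hF : Good F) :
    ∃ F', F ≤ F' ∧ Good F' ∧ ∀ t : Task, Over t F →
      (∃ F'', F' ≤ F'' ∧ Good F'' ∧ SolvedIn t F'') → SolvedIn t F' := by
  have hc := countable_over hF.countable
  have hne : {t : Task | Over t F}.Nonempty := by
    refine ⟨⟨0, ∅⟩, ?_⟩
    intro f hf
    simp at hf
  obtain ⟨e, he⟩ := hc.exists_eq_range hne
  refine ⟨⨆ k, chain e F k, le_iSup (chain e F) 0, good_iSup _ (chain_mono e F)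
    (chain_good e hF), ?_⟩
  rintro t ht ⟨F'', h1, h2, h3⟩
  have ht' : t ∈ Set.range e := by rw [← he]; exact ht
  obtain ⟨k, rfl⟩ := ht'
  have hk : SolvedIn (e k) (chain e F (k + 1)) :=
    solved_stepOne (e k) (chain e F k) ⟨F'', (le_iSup (chain e F) k).trans h1, h2, h3⟩
  exact hk.mono (le_iSup (chain e F) (k + 1))

theorem exists_ec : ∃ K : IntermediateField ℚ ℂ, Good K ∧ ∀ t : Task, Over t K →
    (∃ M, K ≤ M ∧ Good M ∧ SolvedIn t M) → SolvedIn t K := by
  choose! G hG1 hG2 hG3 using exists_all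
  let H : ℕ → IntermediateField ℚ ℂ := fun k => G^[k] ⊥
  have hs : ∀ k, H (k + 1) = G (H k) := fun k => Function.iterate_succ_apply' G k ⊥
  have hgood : ∀ k, Good (H k) := by
    intro k
    induction k with
    | zero => exact good_bot
    | succ k ih => rw [hs]; exact hG2 _ ih
  have hmono : Monotone H := monotone_nat_of_le_succ fun k => by
    rw [hs]; exact hG1 _ (hgood k)
  have hK : Good (⨆ k, H k) := good_iSup H hmono hgood
  refine ⟨⨆ k, H k, hK, ?_⟩
  rintro t ht ⟨M, hM1, hM2, hM3⟩
  have hc : ((⨆ n, H n : IntermediateField ℚ ℂ) : Set ℂ) = ⋃ n, (H n : Set ℂ) :=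
    IntermediateField.coe_iSup_of_directed hmono.directed_le
  have hfin : ∀ C : Finset ℂ, (∀ c ∈ C, c ∈ (⨆ k, H k : IntermediateField ℚ ℂ)) →
      ∃ i, ∀ c ∈ C, c ∈ H i := by
    intro C
    induction C using Finset.induction_on with
    | empty => intro _; exact ⟨0, by simp⟩
    | insert a C _ ih =>
      intro h
      obtain ⟨i, hi⟩ := ih fun c hc => h c (Finset.mem_insert_of_mem hc)
      have ha : a ∈ ((⨆ n, H n : IntermediateField ℚ ℂ) : Set ℂ) := h a (Finset.mem_insert_self a C)
      rw [hc, Set.mem_iUnion] at ha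
      obtain ⟨j, hj⟩ := ha
      refine ⟨max i j, fun c hcm => ?_⟩
      rcases Finset.mem_insert.1 hcm with rfl | hcm
      · exact hmono (le_max_right i j) hj
      · exact hmono (le_max_left i j) (hi c hcm)
  obtain ⟨i, hi⟩ := hfin (t.2.biUnion fun f => f.support.image fun m => MvPolynomial.coeff m f) (by
    intro c hcm
    simp only [Finset.mem_biUnion, Finset.mem_image] at hcm
    obtain ⟨f, hf, m, _, rfl⟩ := hcm
    exact ht f hf m)
  have hover : Over t (H i) := by
    intro f hf m
    by_cases hm : m ∈ f.support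
    · exact hi _ (Finset.mem_biUnion.2 ⟨f, hf, Finset.mem_image.2 ⟨m, hm, rfl⟩⟩)
    · rw [MvPolynomial.notMem_support_iff.1 hm]
      exact (H i).zero_mem
  have h1 : SolvedIn t (G (H i)) := by
    refine hG3 (H i) (hgood i) t hover ⟨M, ?_, hM2, hM3⟩
    rw [← hs]
    exact (le_iSup H (i + 1)).trans hM1
  rw [← hs] at h1
  exact h1.mono (le_iSup H (i + 1))

end Pool.Agent.H301R3
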