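import Mathlib

open Cardinal

namespace Pool.Agent.H301R3

theorem embed_complex (F : Type) [Field F] [Algebra F ℂ] [Countable F] (M : Type) [Field M]
    [Algebra F M] [Countable M] : Nonempty (M →ₐ[F] ℂ) := by
  obtain ⟨s, hs⟩ := exists_isTranscendenceBasis F M
  obtain ⟨t, ht⟩ := exists_isTranscendenceBasis F ℂ
  have hF : #F ≤ ℵ₀ := Cardinal.mk_le_aleph0
  have hC : ℵ₀ < #ℂ := by rw [Cardinal.mk_complex]; exact Cardinal.aleph0_lt_continuum
  have hcard := IsAlgClosed.cardinal_eq_cardinal_transcendence_basis_of_aleph0_lt _ ht hF hC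
  have hst : #s ≤ #t := by
    have h1 : #s ≤ ℵ₀ := Cardinal.mk_le_aleph0
    have h2 : #t = #ℂ := by simpa using hcard.symm
    rw [h2]
    exact h1.trans hC.le
  obtain ⟨e⟩ := hst
  let x : s → ℂ := fun i => (e i : ℂ)
  have hx : AlgebraicIndependent F x := ht.1.comp e e.injective
  let R := Algebra.adjoin F (Set.range ((↑) : s → M))
  let ψ : R →ₐ[F] ℂ := (MvPolynomial.aeval x).comp (hs.1.aevalEquiv.symm : R →ₐ[F] MvPolynomial s F)
  have hψ : Function.Injective ψ := by
    have h1 : Function.Injective (MvPolynomial.aeval x : MvPolynomial s F →ₐ[F] ℂ) := hx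
    exact h1.comp hs.1.aevalEquiv.symm.injective
  letI : Algebra R ℂ := ψ.toRingHom.toAlgebra
  haveI : IsScalarTower F R ℂ := IsScalarTower.of_algebraMap_eq fun r => by
    change algebraMap F ℂ r = ψ (algebraMap F R r)
    rw [AlgHom.commutes]
  haveI : Algebra.IsAlgebraic R M := hs.isAlgebraic
  haveI : Module.IsTorsionFree R ℂ := by
    rw [Module.isTorsionFree_iff_algebraMap_injective]
    exact hψ
  haveI : Module.IsTorsionFree R M := by
    rw [Module.isTorsionFree_iff_algebraMap_injective]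
    exact Subtype.val_injective
  exact ⟨(IsAlgClosed.lift (M := ℂ) (R := R) (S := M)).restrictScalars F⟩

end Pool.Agent.H301R3
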