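import Mathlib
import Pool.Agent.H301R3.EC

open scoped IntermediateField

namespace Pool.Agent.H301R3

/-- If the rational numbers are algebraically closed in the subfield `K` of the complex numbers,
then no finite set generates the absolute Galois group of `K` topologically. -/
theorem not_fg (K : IntermediateField ℚ ℂ) (hK : Good K)
    (S : Finset (SeparableClosure K ≃ₐ[K] SeparableClosure K)) :
    closure ((Subgroup.closure (S : Set (SeparableClosure K ≃ₐ[K] SeparableClosure K)) :
      Set (SeparableClosure K ≃ₐ[K] SeparableClosure K))) ≠ Set.univ := by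
  classical
  intro hS
  set E := SeparableClosure K with hE
  -- square roots of primes
  have hroot : ∀ i : ℕ, ∃ r : E, r ^ 2 = ((Nat.nth Nat.Prime i : ℕ) : E) := by
    intro i
    exact IsSepClosed.exists_pow_nat_eq _ 2
  choose r hr using hroot
  have hprime : ∀ i, (Nat.nth Nat.Prime i).Prime := fun i => Nat.prime_nth_prime i
  have hr0 : ∀ i, r i ≠ 0 := by
    intro i h0
    have := hr i
    rw [h0] at this
    have h2 : ((Nat.nth Nat.Prime i : ℕ) : E) ≠ 0 := Nat.cast_ne_zero.2 (hprime i).ne_zero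
    exact h2 (by rw [← this]; simp)
  let N := S.card
  let P : Finset ℕ → E := fun T => ∏ i ∈ T, r i
  have hP0 : ∀ T, P T ≠ 0 := fun T => Finset.prod_ne_zero_iff.2 fun i _ => hr0 i
  have hPsq : ∀ T, (P T) ^ 2 = ((∏ i ∈ T, Nat.nth Nat.Prime i : ℕ) : E) := by
    intro T
    simp only [P]
    rw [← Finset.prod_pow, Nat.cast_prod]
    exact Finset.prod_congr rfl fun i _ => hr i
  have hsign : ∀ (σ : E ≃ₐ[K] E) T, σ (P T) = P T ∨ σ (P T) = - P T := by
    intro σ T
    have h1 : (σ (P T)) ^ 2 = (P T) ^ 2 := by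
      rw [← map_pow, hPsq, map_natCast]
    exact sq_eq_sq_iff_eq_or_eq_neg.1 h1
  -- pigeonhole
  let vec : Finset ℕ → Finset (E ≃ₐ[K] E) := fun T => S.filter fun σ => σ (P T) = P T
  obtain ⟨T₁, hT₁, T₂, hT₂, hne, hvec⟩ : ∃ T₁ ∈ (Finset.range (N + 1)).powerset,
      ∃ T₂ ∈ (Finset.range (N + 1)).powerset, T₁ ≠ T₂ ∧ vec T₁ = vec T₂ := by
    refine Finset.exists_ne_map_eq_of_card_lt_of_maps_to (t := S.powerset) ?_ ?_
    · rw [Finset.card_powerset, Finset.card_powerset, Finset.card_range]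
      exact Nat.pow_lt_pow_right (by norm_num) (by omega)
    · intro T _
      exact Finset.mem_powerset.2 (Finset.filter_subset _ _)
  let x : E := P T₁ * P T₂
  have hfixS : ∀ σ ∈ S, σ x = x := by
    intro σ hσ
    simp only [x, map_mul]
    by_cases h1 : σ (P T₁) = P T₁
    · have h2 : σ ∈ vec T₁ := Finset.mem_filter.2 ⟨hσ, h1⟩
      rw [hvec] at h2
      rw [h1, (Finset.mem_filter.1 h2).2]
    · have h2 : ¬ σ (P T₂) = P T₂ := by
        intro h3
        have h4 : σ ∈ vec T₂ := Finset.mem_filter.2 ⟨hσ, h3⟩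
        rw [← hvec] at h4
        exact h1 (Finset.mem_filter.1 h4).2
      rw [(hsign σ T₁).resolve_left h1, (hsign σ T₂).resolve_left h2]
      ring
  -- the stabiliser of x is closed
  have hfix : ∀ σ : E ≃ₐ[K] E, σ x = x := by
    intro σ
    let H : Subgroup (E ≃ₐ[K] E) := (K⟮x⟯).fixingSubgroup
    have hHc : IsClosed (H : Set (E ≃ₐ[K] E)) := InfiniteGalois.fixingSubgroup_isClosed K⟮x⟯
    have hmem : ∀ τ : E ≃ₐ[K] E, τ ∈ H ↔ τ x = x := by
      intro τ
      simp only [H]
      rw [IntermediateField.mem_fixingSubgroup_iff]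
      constructor
      · intro h
        exact h x (IntermediateField.mem_adjoin_simple_self K x)
      · intro h y hy
        have hle : K⟮x⟯ ≤ IntermediateField.fixedField (Subgroup.zpowers τ) := by
          rw [IntermediateField.adjoin_simple_le_iff]
          intro g
          obtain ⟨g, n, rfl⟩ := g
          have hfx : ∀ n : ℤ, (τ ^ n) x = x := by
            intro n
            have : τ ∈ MulAction.stabilizer (E ≃ₐ[K] E) x := h
            exact (MulAction.stabilizer (E ≃ₐ[K] E) x).zpow_mem this n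
          exact hfx n
        have := hle hy ⟨τ, Subgroup.mem_zpowers τ⟩
        exact this
    have hsub : (Subgroup.closure (S : Set (E ≃ₐ[K] E))) ≤ H := by
      rw [Subgroup.closure_le]
      intro τ hτ
      exact (hmem τ).2 (hfixS τ hτ)
    have hcl : closure ((Subgroup.closure (S : Set (E ≃ₐ[K] E)) : Subgroup _) : Set (E ≃ₐ[K] E)) ⊆ H :=
      closure_minimal hsub hHc
    rw [hS] at hcl
    exact (hmem σ).1 (hcl (Set.mem_univ σ))
  -- so x lies in K
  have hxK : x ∈ (⊥ : IntermediateField K E) :=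
    (InfiniteGalois.mem_bot_iff_fixed x).2 fun f => hfix f
  obtain ⟨k, hk⟩ := IntermediateField.mem_bot.1 hxK
  let m : ℕ := (∏ i ∈ T₁, Nat.nth Nat.Prime i) * (∏ i ∈ T₂, Nat.nth Nat.Prime i)
  have hk2 : k ^ 2 = (m : K) := by
    apply (algebraMap K E).injective
    rw [map_pow, hk, map_natCast]
    simp only [x, m]
    rw [mul_pow, hPsq, hPsq, Nat.cast_mul]
  have hkalg : IsAlgebraic ℚ (k : ℂ) := by
    have h1 : ((k : ℂ)) ^ 2 = (m : ℂ) := by
      have := congrArg (algebraMap K ℂ) hk2
      simpa using this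
    have h2 : IsAlgebraic ℚ ((k : ℂ) ^ 2) := by
      rw [h1]; exact isAlgebraic_natCast m
    exact IsAlgebraic.of_pow (by norm_num) h2
  obtain ⟨q, hq⟩ := IntermediateField.mem_bot.1 (hK.alg _ k.2 hkalg)
  have hq2 : q ^ 2 = (m : ℚ) := by
    have h1 : ((k : ℂ)) ^ 2 = (m : ℂ) := by
      have := congrArg (algebraMap K ℂ) hk2
      simpa using this
    rw [← hq] at h1
    have h2 : ((q ^ 2 : ℚ) : ℂ) = ((m : ℚ) : ℂ) := by
      push_cast
      simpa using h1
    exact_mod_cast h2
  have hm0 : ∀ T : Finset ℕ, (∏ i ∈ T, Nat.nth Nat.Prime i) ≠ 0 := fun T =>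
    Finset.prod_ne_zero_iff.2 fun i _ => (hprime i).ne_zero
  have hfac : ∀ (T : Finset ℕ) (i₀ : ℕ),
      (∏ i ∈ T, Nat.nth Nat.Prime i).factorization (Nat.nth Nat.Prime i₀) =
        if i₀ ∈ T then 1 else 0 := by
    intro T i₀
    rw [Nat.factorization_prod fun i _ => (hprime i).ne_zero, Finsupp.finset_sum_apply]
    have h1 : ∀ i ∈ T, (Nat.nth Nat.Prime i).factorization (Nat.nth Nat.Prime i₀) =
        if i₀ = i then 1 else 0 := by
      intro i _
      rw [(hprime i).factorization, Finsupp.single_apply]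
      by_cases h : i₀ = i
      · rw [if_pos h, if_pos (by rw [h])]
      · rw [if_neg h, if_neg]
        intro h2
        exact h ((Nat.nth_injective Nat.infinite_setOf_prime) h2).symm
    rw [Finset.sum_congr rfl h1, Finset.sum_ite_eq]
  have hsq : IsSquare m := by
    rw [← Rat.isSquare_natCast_iff]
    exact ⟨q, by rw [← hq2]; ring⟩
  obtain ⟨s, hs⟩ := hsq
  have hparity : ∀ i₀, ((if i₀ ∈ T₁ then 1 else 0) + (if i₀ ∈ T₂ then 1 else 0) : ℕ) =
      s.factorization (Nat.nth Nat.Prime i₀) + s.factorization (Nat.nth Nat.Prime i₀) := by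
    intro i₀
    have hs0 : s ≠ 0 := by
      rintro rfl
      exact (mul_ne_zero (hm0 T₁) (hm0 T₂)) (by simpa [m] using hs)
    rw [← hfac T₁ i₀, ← hfac T₂ i₀, ← Finsupp.add_apply, ← Nat.factorization_mul (hm0 T₁) (hm0 T₂),
      ← Finsupp.add_apply, ← Nat.factorization_mul hs0 hs0, ← hs]
  apply hne
  ext i₀
  have h := hparity i₀
  by_cases h1 : i₀ ∈ T₁ <;> by_cases h2 : i₀ ∈ T₂ <;> simp only [h1, h2, if_true, if_false] at h ⊢ <;>
    omega

end Pool.Agent.H301R3
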