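import Mathlib
import Pool.Agent.H301R3.EC
import Pool.Agent.H301R3.Embed
import Pool.Agent.H301R3.AlgClosedIn

open scoped TensorProduct IntermediateField

namespace Pool.Agent.H301R3

theorem countable_of_finiteType {K A : Type} [Field K] [Countable K] [CommRing A] [Algebra K A]
    [Algebra.FiniteType K A] : Countable A := by
  obtain ⟨n, f, hf⟩ := Algebra.FiniteType.iff_quotient_mvPolynomial''.1
    (inferInstance : Algebra.FiniteType K A)
  have : Countable (MvPolynomial (Fin n) K) := by
    rw [← Cardinal.mk_le_aleph0_iff]
    refine (MvPolynomial.cardinalMk_le_max (σ := Fin n) (R := K)).trans ?_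
    have h1 : Cardinal.mk K ≤ Cardinal.aleph0 := Cardinal.mk_le_aleph0
    have h2 : Cardinal.mk (Fin n) ≤ Cardinal.aleph0 := Cardinal.mk_le_aleph0
    exact max_le (max_le h1 h2) le_rfl
  exact hf.countable

theorem countable_fractionRing {A : Type} [CommRing A] [IsDomain A] [Countable A] :
    Countable (FractionRing A) := by
  have hsurj : Function.Surjective
      (fun p : A × A => algebraMap A (FractionRing A) p.1 / algebraMap A (FractionRing A) p.2) := by
    intro x
    obtain ⟨a, b, _, rfl⟩ := IsFractionRing.div_surjective (A := A) x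
    exact ⟨(a, b), rfl⟩
  exact hsurj.countable

/-- There is a countable field `K` of complex numbers, in which the rational numbers are
algebraically closed, which is pseudo algebraically closed. -/
theorem exists_pac : ∃ K : IntermediateField ℚ ℂ, Good K ∧
    ∀ (A : Type) [CommRing A] [Algebra K A] [Algebra.FiniteType K A],
      (∀ (L : Type) [Field L] [Algebra K L], IsDomain (A ⊗[K] L)) → Nonempty (A →ₐ[K] K) := by
  classical
  obtain ⟨K, hK, hec⟩ := exists_ec
  refine ⟨K, hK, ?_⟩
  intro A _ _ _ h
  have hKc : Countable K := hK.countable.to_subtype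
  have hAc : Countable A := countable_of_finiteType (K := K)
  have hAd : IsDomain A := by
    have := h K
    exact (Algebra.TensorProduct.rid K K A).symm.injective.isDomain
      (Algebra.TensorProduct.rid K K A).symm.toAlgHom.toRingHom
  have hFc : Countable (FractionRing A) := countable_fractionRing
  obtain ⟨φ⟩ := embed_complex K (FractionRing A)
  obtain ⟨n, π, hπ⟩ := Algebra.FiniteType.iff_quotient_mvPolynomial''.1
    (inferInstance : Algebra.FiniteType K A)
  have hch : CharZero (FractionRing A) :=
    charZero_of_injective_algebraMap (algebraMap K (FractionRing A)).injective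
  -- the image field
  let φQ : FractionRing A →ₐ[ℚ] ℂ := φ.toRingHom.toRatAlgHom
  have hφQ : ∀ x, φQ x = φ x := fun x => rfl
  let M : IntermediateField ℚ ℂ := φQ.fieldRange
  have hKM : K ≤ M := by
    intro x hx
    refine ⟨algebraMap K (FractionRing A) ⟨x, hx⟩, ?_⟩
    change φ (algebraMap K (FractionRing A) ⟨x, hx⟩) = x
    rw [AlgHom.commutes]
    rfl
  have hM : Good M := by
    refine ⟨?_, ?_⟩
    · have : (M : Set ℂ) = Set.range φ := by
        ext x; rfl
      rw [this]
      exact Set.countable_range _
    · rintro _ ⟨y, rfl⟩ hxa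
      change IsAlgebraic ℚ (φ y) at hxa
      change φ y ∈ (⊥ : IntermediateField ℚ ℂ)
      have hya : IsAlgebraic ℚ y := by
        have := (isAlgebraic_algHom_iff φQ φ.toRingHom.injective (a := y)).1 hxa
        exact this
      have htow : IsScalarTower ℚ K (FractionRing A) := inferInstance
      have hyK : IsAlgebraic K y := hya.tower_top K
      have hy := mem_bot_of_isAlgebraic h y hyK
      obtain ⟨k, hk⟩ := IntermediateField.mem_bot.1 hy
      have hφ : φ y = (k : ℂ) := by
        rw [← hk, AlgHom.commutes]; rfl
      rw [hφ]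
      refine hK.alg _ k.2 ?_
      rw [← hφ]; exact hxa
  -- the task
  have hfg : (RingHom.ker π).FG := IsNoetherian.noetherian _
  obtain ⟨S, hS⟩ := hfg
  let t : Task := ⟨n, S.image (MvPolynomial.map (algebraMap K ℂ))⟩
  have htK : Over t K := by
    intro f hf m
    simp only [t, Finset.mem_image] at hf
    obtain ⟨g, _, rfl⟩ := hf
    rw [MvPolynomial.coeff_map]
    exact (MvPolynomial.coeff m g).2
  have hsol : SolvedIn t M := by
    refine ⟨fun i => φ (algebraMap A (FractionRing A) (π (MvPolynomial.X i))), fun i => ⟨_, rfl⟩, ?_⟩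
    intro f hf
    simp only [t, Finset.mem_image] at hf
    obtain ⟨g, hg, rfl⟩ := hf
    rw [MvPolynomial.eval_map]
    have hg0 : π g = 0 := by
      have : g ∈ RingHom.ker π := by rw [← hS]; exact Ideal.subset_span hg
      exact this
    have hcomp : ∀ g : MvPolynomial (Fin n) K,
        MvPolynomial.eval₂ (algebraMap K ℂ)
          (fun i => φ (algebraMap A (FractionRing A) (π (MvPolynomial.X i)))) g =
        φ (algebraMap A (FractionRing A) (π g)) := by
      intro g
      have : (MvPolynomial.aeval (fun i => φ (algebraMap A (FractionRing A)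
          (π (MvPolynomial.X i)))) : MvPolynomial (Fin n) K →ₐ[K] ℂ) =
          (φ.comp (IsScalarTower.toAlgHom K A (FractionRing A))).comp π := by
        ext i
        simp
      have h2 := congrArg (fun ψ : MvPolynomial (Fin n) K →ₐ[K] ℂ => ψ g) this
      simpa [MvPolynomial.aeval_def] using h2
    rw [hcomp, hg0, map_zero, map_zero]
  obtain ⟨v, hv, hz⟩ := hec t htK ⟨M, hKM, hM, hsol⟩
  let w : Fin n → K := fun i => ⟨v i, hv i⟩
  have hker : ∀ g ∈ RingHom.ker π, MvPolynomial.aeval w g = (0 : K) := by
    intro g hg
    have hle : RingHom.ker π ≤ RingHom.ker (MvPolynomial.aeval w : MvPolynomial (Fin n) K →ₐ[K] K) := by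
      rw [← hS, Ideal.span_le]
      intro f hf
      have h1 := hz (MvPolynomial.map (algebraMap K ℂ) f) (Finset.mem_image_of_mem _ hf)
      rw [MvPolynomial.eval_map] at h1
      have h2 : algebraMap K ℂ (MvPolynomial.aeval w f) = 0 := by
        rw [← h1, MvPolynomial.aeval_def, Algebra.algebraMap_self, MvPolynomial.hom_eval₂]
        rfl
      change MvPolynomial.aeval w f = 0
      exact (algebraMap K ℂ).injective (by rw [h2, map_zero])
    exact hle hg
  let e := Ideal.quotientKerAlgEquivOfSurjective hπ
  exact ⟨(Ideal.Quotient.liftₐ (RingHom.ker π) (MvPolynomial.aeval w) hker).comp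
    (e.symm : A →ₐ[K] _)⟩

end Pool.Agent.H301R3
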