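import Mathlib

open CategoryTheory AlgebraicGeometry TopologicalSpace Limits
open scoped TensorProduct

namespace Pool.Agent.H301R3

theorem isDomain_tensor_of_geometricallyIntegral (K : Type) [Field K] (X : Scheme.{0})
    (f : X ⟶ Spec (.of K)) [GeometricallyIntegral f] (A : Type) [CommRing A] [Algebra K A]
    [Nontrivial A] (j : Spec (.of A) ⟶ X) [IsOpenImmersion j]
    (hj : j ≫ f = Spec.map (CommRingCat.ofHom (algebraMap K A)))
    (L : Type) [Field L] [Algebra K L] : IsDomain (A ⊗[K] L) := by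
  let y : Spec (.of L) ⟶ Spec (.of K) := Spec.map (CommRingCat.ofHom (algebraMap K L))
  have h1 : AlgebraicGeometry.IsIntegral (pullback f y) :=
    GeometricallyIntegral.geometrically_isIntegral (f := f) _ _ _ (.of_hasPullback f y)
  let e1 : pullback j (pullback.fst f y) ≅ pullback (j ≫ f) y := pullbackRightPullbackFstIso f y j
  let e2 : pullback (j ≫ f) y ≅ pullback (Spec.map (CommRingCat.ofHom (algebraMap K A))) y :=
    pullback.congrHom hj rfl
  let e3 : pullback (Spec.map (CommRingCat.ofHom (algebraMap K A)))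
      (Spec.map (CommRingCat.ofHom (algebraMap K L))) ≅ Spec (.of (A ⊗[K] L)) :=
    pullbackSpecIso K A L
  let g : Spec (.of (A ⊗[K] L)) ⟶ pullback f y :=
    e3.inv ≫ e2.inv ≫ e1.inv ≫ pullback.snd j (pullback.fst f y)
  have hne : Nonempty (Spec (.of (A ⊗[K] L))) := by
    change Nonempty (PrimeSpectrum (A ⊗[K] L))
    infer_instance
  have h2 : AlgebraicGeometry.IsIntegral (Spec (.of (A ⊗[K] L))) := isIntegral_of_isOpenImmersion g
  exact (affine_isIntegral_iff (.of (A ⊗[K] L))).1 h2

theorem exists_section (K : Type) [Field K]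
    (hK : ∀ (A : Type) [CommRing A] [Algebra K A] [Algebra.FiniteType K A],
      (∀ (L : Type) [Field L] [Algebra K L], IsDomain (A ⊗[K] L)) → Nonempty (A →ₐ[K] K))
    (X : Scheme.{0}) (f : X ⟶ Spec (.of K)) [GeometricallyIntegral f] [LocallyOfFiniteType f] :
    ∃ s : Spec (.of K) ⟶ X, s ≫ f = 𝟙 _ := by
  have hX : AlgebraicGeometry.IsIntegral X := GeometricallyIntegral.isIntegral_of_subsingleton f
  obtain ⟨x⟩ : Nonempty X := inferInstance
  obtain ⟨R, j, hj, hxj, _⟩ :=
    AlgebraicGeometry.Scheme.exists_affine_mem_range_and_range_subset (X := X) (x := x) (U := ⊤) trivial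
  obtain ⟨z, hz⟩ := hxj
  obtain ⟨φ, hφ⟩ := Spec.map_surjective (j ≫ f)
  letI : Algebra K R := φ.hom.toAlgebra
  have hφ' : j ≫ f = Spec.map (CommRingCat.ofHom (algebraMap K R)) := hφ.symm
  have hnt : Nontrivial R := PrimeSpectrum.nontrivial z
  have hft : Algebra.FiniteType K R := by
    have h1 : LocallyOfFiniteType (Spec.map φ) := by
      rw [hφ]; infer_instance
    have h2 := (HasRingHomProperty.Spec_iff (P := @LocallyOfFiniteType)).1 h1
    exact h2
  obtain ⟨ψ⟩ := hK R fun L _ _ =>
    isDomain_tensor_of_geometricallyIntegral K X f R j hφ' L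
  refine ⟨Spec.map (CommRingCat.ofHom ψ.toRingHom) ≫ j, ?_⟩
  rw [Category.assoc, hφ', ← Spec.map_comp, ← CommRingCat.ofHom_comp]
  have : ψ.toRingHom.comp (algebraMap K R) = RingHom.id K := by
    ext k
    exact ψ.commutes k
  rw [this]
  exact Spec.map_id _

end Pool.Agent.H301R3
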